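import Pool.Agent.Lib.SE.X.Asm

/-!
# PROJECT SE-X: one meagre set in `ℂᵖ` (helper64)
-/

set_option autoImplicit false

open Module MeasureTheory Topology

noncomputable section

namespace SEX

open HC HC.E HC.SE SEB SEQ SEG SEY

/-- **Jnx**: ONE VERY GENERAL POINT. For given meagre sets `M m r b` there are meagre sets `M' p ⊆ ℂᵖ` such that for
`s ∉ M' p` no `s ∘ ι`, `ι` injective, is in any `M m r b`, and any two cyclic covers with at least 5 branch points,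
branched at `∞` and coordinates of `s`, and not of CM type, are isogenous or independent. -/
def S_Jnx : Prop :=
  ∀ M : (m r : ℕ) → (Fin (r + 1) → ℕ) → Set (Fin (r + 1) → ℂ), (∀ m r b, IsMeagre (M m r b)) →
  ∃ M' : (p : ℕ) → Set (Fin p → ℂ), (∀ p, IsMeagre (M' p)) ∧
    ∀ (p : ℕ) (s : Fin p → ℂ), s ∉ M' p →
      (∀ (m r : ℕ) (b : Fin (r + 1) → ℕ) (ι : Fin (r + 1) → Fin p), Function.Injective ι →
        s ∘ ι ∉ M m r b) ∧
      ∀ (m r : ℕ) (b : Fin (r + 1) → ℕ) (m' r' : ℕ) (b' : Fin (r' + 1) → ℕ)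
        (ι : Fin (r + 1) → Fin p) (ι' : Fin (r' + 1) → Fin p), Function.Injective ι →
        Function.Injective ι' → 3 ≤ r → 3 ≤ r' → HypW m r b → HypW m' r' b' →
        IsCov m (s ∘ ι) b → IsCov m' (s ∘ ι') b' →
        ∀ (T T' : AV) (N : New T m (s ∘ ι) b) (N' : New T' m' (s ∘ ι') b') (D : Cyc T m)
          (D' : Cyc T' m'), D.Z = N.Z → D'.Z = N'.Z → Isg T T' ∨ Ind D D'

/-- Preimages of the sets `M m r b`. -/
def MP (M : (m r : ℕ) → (Fin (r + 1) → ℕ) → Set (Fin (r + 1) → ℂ)) (p : ℕ) :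
    Set (Fin p → ℂ) :=
  ⋃ (m : ℕ) (r : ℕ) (b : Fin (r + 1) → ℕ) (ι : Fin (r + 1) → Fin p),
    {s | Function.Injective ι ∧ s ∘ ι ∈ M m r b}

theorem mp_meagre (M : (m r : ℕ) → (Fin (r + 1) → ℕ) → Set (Fin (r + 1) → ℂ))
    (hM : ∀ m r b, IsMeagre (M m r b)) (hP : S_xP) (p : ℕ) : IsMeagre (MP M p) := by
  refine isMeagre_iUnion fun m => isMeagre_iUnion fun r => isMeagre_iUnion fun b =>
    isMeagre_iUnion fun ι => ?_
  by_cases hι : Function.Injective ι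
  · exact (hP.1 (r + 1) p ι _ hι (hM m r b)).mono fun s hs => hs.2
  · have : {s : Fin p → ℂ | Function.Injective ι ∧ s ∘ ι ∈ M m r b} = ∅ :=
      Set.eq_empty_of_forall_notMem fun s hs => hι hs.1
    rw [this]
    exact IsMeagre.empty

theorem notMem_mp {M : (m r : ℕ) → (Fin (r + 1) → ℕ) → Set (Fin (r + 1) → ℂ)} {p : ℕ}
    {s : Fin p → ℂ} (h : s ∉ MP M p) (m r : ℕ) (b : Fin (r + 1) → ℕ)
    (ι : Fin (r + 1) → Fin p) (hι : Function.Injective ι) : s ∘ ι ∉ M m r b := by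
  intro h1
  refine h ?_
  simp only [MP, Set.mem_iUnion]
  exact ⟨m, r, b, ι, hι, h1⟩

/-- The bad sets of the pairs. -/
def MQ (p : ℕ) : Set (Fin p → ℂ) :=
  ⋃ (m : ℕ) (r : ℕ) (b : Fin (r + 1) → ℕ) (m' : ℕ) (r' : ℕ) (b' : Fin (r' + 1) → ℕ)
    (ι : Fin (r + 1) → Fin p) (ι' : Fin (r' + 1) → Fin p),
    {s | (Function.Injective ι ∧ Function.Injective ι' ∧ 3 ≤ r ∧ HypW m r b ∧
      HypW m' r' b') ∧ ¬ InX m r b m' r' b' (s ∘ ι) (s ∘ ι')}

theorem mq_meagre (M : ModsX) (p : ℕ) : IsMeagre (MQ p) := by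
  refine isMeagre_iUnion fun m => isMeagre_iUnion fun r => isMeagre_iUnion fun b =>
    isMeagre_iUnion fun m' => isMeagre_iUnion fun r' => isMeagre_iUnion fun b' =>
    isMeagre_iUnion fun ι => isMeagre_iUnion fun ι' => ?_
  by_cases h : Function.Injective ι ∧ Function.Injective ι' ∧ 3 ≤ r ∧ HypW m r b ∧
      HypW m' r' b'
  · exact (pairX M p m r b m' r' b' ι ι' h.1 h.2.1 h.2.2.1 h.2.2.2.1 h.2.2.2.2).mono
      fun s hs => hs.2
  · have : {s : Fin p → ℂ | (Function.Injective ι ∧ Function.Injective ι' ∧ 3 ≤ r ∧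
        HypW m r b ∧ HypW m' r' b') ∧ ¬ InX m r b m' r' b' (s ∘ ι) (s ∘ ι')} = ∅ :=
      Set.eq_empty_of_forall_notMem fun s hs => h hs.1
    rw [this]
    exact IsMeagre.empty

/-- **Jnx.** -/
theorem jnx_of (Ms : ModsX) : S_Jnx := by
  intro M hM
  refine ⟨fun p => (MP M p ∪ MP MMx p) ∪ MQ p, fun p =>
    ((mp_meagre M hM Ms.xP p).union (mp_meagre MMx SEB.tMx Ms.xP p)).union (mq_meagre Ms p),
    ?_⟩
  intro p s hs
  rw [Set.mem_union, Set.mem_union, not_or, not_or] at hs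
  obtain ⟨⟨h1, h2⟩, h3⟩ := hs
  refine ⟨notMem_mp h1, ?_⟩
  intro m r b m' r' b' ι ι' hι hι' hr hr' hW hW' hc hc' T T' N N' D D' hD hD'
  have h4 : InX m r b m' r' b' (s ∘ ι) (s ∘ ι') := by
    by_contra hno
    refine h3 ?_
    simp only [MQ, Set.mem_iUnion]
    exact ⟨m, r, b, m', r', b', ι, ι', ⟨hι, hι', hr, hW, hW'⟩, hno⟩
  exact h4 T T' hc hc' N D hD (gfw_of_MMx hr hW hc (notMem_mp h2 m r b ι hι) N D hD).1 N' D' hD'
    (gfw_of_MMx hr' hW' hc' (notMem_mp h2 m' r' b' ι' hι') N' D' hD').1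

end SEX
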