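import Pool.Agent.Lib.SE.X.Spec
import Pool.Agent.Lib.SE.Big.eF

/-!
# PROJECT SE-X, module xF: the Baire argument for links of two types, all signatures
-/

set_option autoImplicit false

open Module MeasureTheory Topology

noncomputable section

namespace SEX

open HC HC.E HC.SE SEB SEQ SEG SEY

namespace xF_aux

open SEB.eF_aux

lemma sg_le {m m' r : ℕ} (hJx : S_cJx) {b b' : Fin (r + 1) → ℕ} {u v : ℕ} {s : Fin (r + 1) → ℂ}
    (hs : AdX m b u m' b' v s) {θ : Module.End ℂ (Fin r → ℂ)} (hθ : Function.Injective θ)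
    (hl : LkX m b u m' b' v s θ) :
    sg m r b u ≤ sg m' r b' v ∧ sg m r b (m - u) ≤ sg m' r b' (m' - v) := by
  obtain ⟨h1, h2, h3, h4⟩ := hs
  obtain ⟨J, hJ, -, -, -, -, k1, k2⟩ := hJx m r b u s h1 h2
  obtain ⟨J', hJ', -, -, -, -, k1', k2'⟩ := hJx m' r b' v s h3 h4
  have e := hl J J' hJ hJ'
  have s1 := dim_le hθ e (-Complex.I)
  have s2 := dim_le hθ e Complex.I
  rw [sub_form, sub_form, k1, k1'] at s1
  rw [k2, k2'] at s2
  exact ⟨s1, s2⟩

lemma lk_neg {m m' r : ℕ} {b b' : Fin (r + 1) → ℕ} {u v : ℕ} {s : Fin (r + 1) → ℂ} (hu : u < m)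
    (hv : v < m') (h : LkB m b u m' b' v s) : LkB m b (m - u) m' b' (m' - v) s := by
  obtain ⟨θ, ⟨h1, h2⟩, h3⟩ := h
  refine ⟨cj θ, ⟨?_, ?_⟩, ?_⟩
  · intro x y hxy
    rw [cj_apply, cj_apply] at hxy
    exact star_injective (h1 (star_injective hxy))
  · intro k l
    rw [cj_apply, star_single, Pi.star_apply]
    exact alg_star (h2 k l)
  · intro J J' hJ hJ'
    have e := h3 _ _ (isJc_cj hu hJ) (isJc_cj hv hJ')
    refine LinearMap.ext fun x => ?_
    have e' := congrArg (fun X : Module.End ℂ (Fin r → ℂ) => X (star x)) e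
    simp only [Module.End.mul_apply, cj_apply, star_star] at e' ⊢
    have := congrArg star e'
    rw [star_star] at this
    exact this

lemma mu_neg (hK : S_cKap) {m r : ℕ} {b : Fin (r + 1) → ℕ} {u : ℕ} {s : Fin (r + 1) → ℂ}
    (h : Admc m b u s) (j : Fin (r + 1)) : mu m b (m - u) j = 1 - mu m b u j := by
  obtain ⟨h1, -⟩ := hK m r b u s h
  obtain ⟨a1, a2, a3⟩ := h1 j
  have hm : (0 : ℝ) < m := by exact_mod_cast (by omega : 0 < m)
  unfold mu
  rw [a3, Nat.cast_sub a2.le, sub_div, div_self hm.ne']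

end xF_aux

open xF_aux SEB.eF_aux in
theorem txF : S_xB → S_cKap → S_cJx → S_Sg → S_xF := by
  intro hB hK hJx hSg m m' r b b' u v hr hne h1 h2
  have hsum : ∀ s, AdX m b u m' b' v s → sg m r b u + sg m r b (m - u) = r ∧
      sg m' r b' v + sg m' r b' (m' - v) = r := by
    intro s hs
    obtain ⟨⟨_, a2, a3, a4⟩, _, ⟨_, b2, b3, b4⟩, _⟩ := hs
    exact ⟨hSg m r s b a2 u a3 a4, hSg m' r s b' b2 v b3 b4⟩
  by_cases hex : ∃ s, AdX m b u m' b' v s ∧ LkB m b u m' b' v s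
  swap
  · have : {s : Fin (r + 1) → ℂ | AdX m b u m' b' v s ∧ LkB m b u m' b' v s} = ∅ := by
      apply Set.eq_empty_of_forall_notMem
      intro s hs
      exact hex ⟨s, hs⟩
    rw [this]
    exact IsMeagre.empty
  obtain ⟨s₀, hs₀, hl₀⟩ := hex
  have heq : sg m' r b' v = sg m r b u ∧ sg m' r b' (m' - v) = sg m r b (m - u) := by
    obtain ⟨θ, ⟨t1, _⟩, t3⟩ := hl₀
    have := xF_aux.sg_le hJx hs₀ t1 t3
    have := hsum s₀ hs₀
    omega
  obtain ⟨e1, e2⟩ := heq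
  obtain ⟨e3, e4⟩ := hsum s₀ hs₀
  by_cases h3 : 2 ≤ sg m r b u
  · exact hB m m' r b b' u v hne h3 e1 h2
  · obtain ⟨-, u0, um⟩ := admc_neg hs₀.1
    obtain ⟨-, v0, vm⟩ := admc_neg hs₀.2.2.1
    have hmm : m - (m - u) = u := by omega
    obtain ⟨j, hj⟩ := hne
    have hne' : ∃ j, mu m b (m - u) j ≠ mu m' b' (m' - v) j := by
      refine ⟨j, ?_⟩
      rw [mu_neg hK hs₀.1, mu_neg hK hs₀.2.2.1]
      intro h
      apply hj
      linarith
    have hb := hB m m' r b b' (m - u) (m' - v) hne' (by omega) e2 (by rw [hmm]; exact h1)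
    refine hb.mono ?_
    rintro s ⟨⟨a1, a2, a3, a4⟩, hl⟩
    exact ⟨⟨(admc_neg a1).1, ndc_neg um a2, (admc_neg a3).1, ndc_neg vm a4⟩, lk_neg um vm hl⟩

end SEX
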