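import Pool.Agent.Lib.SE.X.Spec
import Pool.Agent.Lib.SE.Y.kB2

/-!
# PROJECT SE-X, module xC: the Baire argument, different sets of branch points (helper61, after SE/Y/kB2.lean)
-/

set_option autoImplicit false

open Module MeasureTheory Topology

noncomputable section

namespace SEX

open HC HC.E HC.SE SEB SEQ SEG SEY

namespace xC_aux

open cCj_aux

/-- the points linked by `B` -/
def XX {n : ℕ} (m m' : ℕ) {r : ℕ} (b b' : Fin (r + 1) → ℕ) (u v : ℕ) (ι ι' : Fin (r + 1) → Fin n)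
    (B : Module.End ℂ (Fin r → ℂ)) : Set (Fin n → ℂ) :=
  {s | ((Admc m b u (s ∘ ι) ∧ NDc m b u (s ∘ ι)) ∧ (Admc m' b' v (s ∘ ι') ∧ NDc m' b' v (s ∘ ι'))) ∧
    ∃ J J', IsJc m b u (s ∘ ι) J ∧ IsJc m' b' v (s ∘ ι') J' ∧ B * J = J' * B}

theorem cont_comp {k n : ℕ} (ι : Fin k → Fin n) : Continuous fun s : Fin n → ℂ => s ∘ ι :=
  continuous_pi fun j => continuous_apply (ι j)

theorem open_comp {k n : ℕ} (ι : Fin k → Fin n) (hι : Function.Injective ι) :
    IsOpenMap fun s : Fin n → ℂ => s ∘ ι := by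
  let f : (Fin n → ℂ) →L[ℂ] (Fin k → ℂ) := LinearMap.toContinuousLinearMap (LinearMap.funLeft ℂ ℂ ι)
  have hf : Function.Surjective f := LinearMap.funLeft_surjective_of_injective ℂ ℂ ι hι
  exact f.isOpenMap hf

/-- the shift of one coordinate -/
def sh {n : ℕ} (s : Fin n → ℂ) (i : Fin n) (ε : ℂ) : Fin n → ℂ :=
  fun j => if j = i then s j + ε else s j

theorem sh_cont {n : ℕ} (s : Fin n → ℂ) (i : Fin n) : Continuous (sh s i) := by
  refine continuous_pi fun j => ?_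
  unfold sh
  by_cases h : j = i
  · simp only [h, if_true]
    exact continuous_const.add continuous_id
  · simp only [h, if_false]
    exact continuous_const

theorem sh_zero {n : ℕ} (s : Fin n → ℂ) (i : Fin n) : sh s i 0 = s := by
  funext j
  unfold sh
  split
  · rw [add_zero]
  · rfl

theorem nd (hxN : S_xN) (hK : S_cKap) (hPv : S_cPv) (hC : S_cC) (hJx : S_cJx) (hCj : S_cCj)
    (hSg : S_Sg) {n m m' r : ℕ} {b b' : Fin (r + 1) → ℕ} {u v : ℕ} {ι ι' : Fin (r + 1) → Fin n}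
    {l : Fin (r + 1)} (hι' : Function.Injective ι') (hl : ι' l ∉ Set.range ι)
    (hp : 0 < sg m' r b' v) (hq : 0 < sg m' r b' (m' - v)) (B : Module.End ℂ (Fin r → ℂ))
    (hB : Function.Injective B) : IsNowhereDense (XX m m' b b' u v ι ι' B) := by
  by_cases hA : ∃ x : Fin n → ℂ, x ∈ XX m m' b b' u v ι ι' B
  swap
  · have h1 : XX m m' b b' u v ι ι' B = ∅ := by
      ext s
      simp only [Set.mem_empty_iff_false, iff_false]
      exact fun h => hA ⟨s, h⟩
    rw [h1]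
    exact isNowhereDense_empty
  obtain ⟨x0, ⟨hx0, hx0'⟩, -⟩ := hA
  have hu : sg m r b u + sg m r b (m - u) = r := hSg m r _ b hx0.1.2.1 u hx0.1.2.2.1 hx0.1.2.2.2
  have hv : sg m' r b' v + sg m' r b' (m' - v) = r :=
    hSg m' r _ b' hx0'.1.2.1 v hx0'.1.2.2.1 hx0'.1.2.2.2
  set O : Set (Fin (r + 1) → ℂ) := {s | Admc m b u s ∧ NDc m b u s} with hOd
  set O' : Set (Fin (r + 1) → ℂ) := {s | Admc m' b' v s ∧ NDc m' b' v s} with hOd'
  have hO : IsOpen O := (hCj m r b u).1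
  have hO' : IsOpen O' := (hCj m' r b' v).1
  set Op : Set (Fin n → ℂ) := {s | s ∘ ι ∈ O ∧ s ∘ ι' ∈ O'} with hOpd
  have hOp : IsOpen Op := (hO.preimage (cont_comp ι)).inter (hO'.preimage (cont_comp ι'))
  set F : (Fin n → ℂ) → Matrix (Fin r) (Fin r) ℂ := fun x =>
    LinearMap.toMatrix' B * JM hu (x ∘ ι) - JM hv (x ∘ ι') * LinearMap.toMatrix' B with hFd
  have hF : ContinuousOn F Op := by
    have j1 : ContinuousOn (fun x : Fin n → ℂ => JM hu (x ∘ ι)) Op :=
      (eB_aux.JM_cont hK hPv hC hu).comp (cont_comp ι).continuousOn fun x hx => hx.1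
    have j2 : ContinuousOn (fun x : Fin n → ℂ => JM hv (x ∘ ι')) Op :=
      (eB_aux.JM_cont hK hPv hC hv).comp (cont_comp ι').continuousOn fun x hx => hx.2
    exact (continuousOn_const.mul j1).sub (j2.mul continuousOn_const)
  have hX : ∀ x ∈ Op, (x ∈ XX m m' b b' u v ι ι' B ↔ F x = 0) := by
    intro x hx
    rw [hFd]
    rw [← kB2_aux.lk_iff hPv hJx hu hv hx.1.1 hx.1.2 hx.2.1 hx.2.2 B]
    exact ⟨fun h => h.2, fun h => ⟨⟨hx.1, hx.2⟩, h⟩⟩
  unfold IsNowhereDense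
  by_contra hne
  obtain ⟨x₀, hx₀⟩ := Set.nonempty_iff_ne_empty.mpr hne
  have hWo : IsOpen (interior (closure (XX m m' b b' u v ι ι' B))) := isOpen_interior
  obtain ⟨x₂, k1, k2⟩ := mem_closure_iff.mp (interior_subset hx₀) _ hWo hx₀
  set W : Set (Fin n → ℂ) := interior (closure (XX m m' b b' u v ι ι' B)) ∩ Op with hW
  have hWO : IsOpen W := hWo.inter hOp
  have hz : ∀ x ∈ W, F x = 0 := by
    intro x hx
    by_contra hne'
    have hcont : ContinuousAt F x := hF.continuousAt (hOp.mem_nhds hx.2)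
    obtain ⟨V, hV1, hV2, hV3⟩ := eventually_nhds_iff.mp (hcont.eventually_ne hne')
    obtain ⟨x', h5, h6⟩ := mem_closure_iff.mp (interior_subset hx.1) V hV2 hV3
    exact hV1 x' h5 ((hX x' ⟨h6.1.1, h6.1.2⟩).1 h6)
  -- the inverse of `B`
  set e : (Fin r → ℂ) ≃ₗ[ℂ] (Fin r → ℂ) := LinearEquiv.ofInjectiveEndo B hB with he
  set Bi : Module.End ℂ (Fin r → ℂ) := e.symm.toLinearMap with hBi
  have hBB : B * Bi = 1 := by
    refine LinearMap.ext fun v => ?_
    rw [Module.End.mul_apply, Module.End.one_apply]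
    have h1 : B (e.symm v) = e (e.symm v) := rfl
    rw [hBi]
    show B (e.symm v) = v
    rw [h1, LinearEquiv.apply_symm_apply]
  have hWn : W.Nonempty := ⟨x₂, k1, ⟨k2.1.1, k2.1.2⟩⟩
  obtain ⟨s', ⟨s, hs, rfl⟩, hns⟩ := hxN m' r b' v ((fun s : Fin n → ℂ => s ∘ ι') '' W) l hp hq
    (open_comp ι' hι' W hWO) (hWn.image _) (by
      rintro _ ⟨s, hs, rfl⟩
      exact hs.2.2)
  apply hns
  intro J hJ
  -- the operator of the first factor
  obtain ⟨J1, hJ1, u1, -⟩ := hJx m r b u (s ∘ ι) hs.2.1.1 hs.2.1.2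
  obtain ⟨J2, -, u2, -⟩ := hJx m' r b' v (s ∘ ι') hs.2.2.1 hs.2.2.2
  have hJ3 : J = B * J1 * Bi := by
    obtain ⟨-, K, K', hK1, hK2, h8⟩ := (hX _ hs.2).2 (hz _ hs)
    rw [u1 K hK1] at h8
    rw [u2 K' hK2, ← u2 J hJ] at h8
    rw [h8, mul_assoc, hBB, mul_one]
  have hev : ∀ᶠ ε in 𝓝 (((0 : ℝ)) : ℂ), sh s (ι' l) ε ∈ W := by
    rw [Complex.ofReal_zero]
    have hc := (sh_cont s (ι' l)).continuousAt (x := (0 : ℂ))
    have h1 : W ∈ 𝓝 (sh s (ι' l) 0) := by
      rw [sh_zero]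
      exact hWO.mem_nhds hs
    exact hc h1
  refine hev.mono fun ε hε => ?_
  have e1 : sh s (ι' l) ε ∘ ι = s ∘ ι := by
    funext j
    have h1 : ι j ≠ ι' l := fun h => hl ⟨j, h⟩
    show sh s (ι' l) ε (ι j) = s (ι j)
    unfold sh
    rw [if_neg h1]
  have e2 : sh s (ι' l) ε ∘ ι' =
      fun j => if j = l then (s ∘ ι') j + ε else (s ∘ ι') j := by
    funext j
    show sh s (ι' l) ε (ι' j) = _
    unfold sh
    by_cases h : j = l
    · rw [if_pos h, if_pos (by rw [h])]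
      rfl
    · rw [if_neg h, if_neg fun h' => h (hι' h')]
      rfl
  obtain ⟨-, K, K', hK1, hK2, h8⟩ := (hX _ hε.2).2 (hz _ hε)
  rw [e1] at hK1
  rw [e2] at hK2
  rw [u1 K hK1] at h8
  have h9 : K' = J := by
    rw [hJ3, h8, mul_assoc, hBB, mul_one]
  rw [← h9]
  exact hK2

end xC_aux

open xC_aux

/-- Module xC: the Baire argument, different sets of branch points. -/
theorem txC : S_xN → S_cKap → S_cPv → S_cC → S_cI → S_cJx → S_cCj → S_Sg → S_xC := by
  intro hxN hK hPv hC _ hJx hCj hSg n m m' r b b' u v ι ι' l _ hι' hl hp hq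
  have : Countable (cBa2_aux.Al r) := (cBa2_aux.countable_Al r).to_subtype
  have hMe : IsMeagre (⋃ θ : cBa2_aux.Al r,
      {x : Fin n → ℂ | Function.Injective (θ : Module.End ℂ (Fin r → ℂ)) ∧
          x ∈ XX m m' b b' u v ι ι' (θ : Module.End ℂ (Fin r → ℂ))}) := by
    refine isMeagre_iUnion fun θ => ?_
    by_cases hi : Function.Injective (θ : Module.End ℂ (Fin r → ℂ))
    · refine (nd (m := m) (b := b) (u := u) hxN hK hPv hC hJx hCj hSg hι' hl hp hq _ hi).isMeagre.mono ?_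
      rintro s ⟨_, hs⟩
      exact hs
    · have h1 : {x : Fin n → ℂ | Function.Injective (θ : Module.End ℂ (Fin r → ℂ)) ∧
            x ∈ XX m m' b b' u v ι ι' (θ : Module.End ℂ (Fin r → ℂ))} = ∅ := by
        ext s
        constructor
        · rintro ⟨h, _⟩
          exact absurd h hi
        · intro h
          exact absurd h (Set.notMem_empty s)
      rw [h1]
      exact IsMeagre.empty
  refine hMe.mono ?_
  rintro x ⟨h1, h2, B, h3, J, J', h4, h5, h6⟩
  exact Set.mem_iUnion.2 ⟨⟨B, h3.2⟩, h3.1, ⟨h1, h2⟩, J, J', h4, h5, h6⟩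

end SEX
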