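import Pool.Agent.Lib.SE.X.Spec
import Pool.Agent.Lib.SE.Big.eD

/-!
# PROJECT SE-X: derivative of a link (module xD)
-/

set_option autoImplicit false

open Module MeasureTheory Topology

noncomputable section

namespace SEX

open HC HC.E HC.SE SEB SEQ SEG SEY

open cDj_aux eD_aux in
theorem txD : S_cPv → S_cKap → S_cD → S_cJx → S_Sg → S_xD := by
  intro hPv hKap hD hJx hSg m m' r b b' u v U hU hUA θ hL s hs f g hf hg hfg a
  obtain ⟨hAu, hNu, hAv, hNv⟩ := hUA s hs
  have h : sg m' r b' v + sg m' r b' (m' - v) = r :=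
    hSg m' r _ b' hAv.2.1 v hAv.2.2.1 hAv.2.2.2
  have hev : ∀ᶠ ε in 𝓝 (0 : ℝ), sc s a ε ∈ U := by
    refine (sc_cont s a).continuousAt.eventually_mem ?_
    rw [sc_zero]
    exact hU.mem_nhds hs
  -- the derivative of `w`
  set w : ℝ → (Fin r → ℂ) := fun ε => θ (Pc m b u (sc s a ε) f) - Pc m' b' v (sc s a ε) g
    with hw
  set w' : Fin r → ℂ := θ (Pc m b u s (Thc (mu m b u) s a f)) -
    Pc m' b' v s (Thc (mu m' b' v) s a g) with hw'
  have hw0 : w 0 = 0 := by
    rw [hw]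
    simp only [sc_zero]
    rw [hfg, sub_self]
  have hderiv : HasDerivAt w w' 0 := by
    have h1 : HasDerivAt (fun ε : ℝ => Pc m b u (sc s a ε) f)
        (Pc m b u s (Thc (mu m b u) s a f)) 0 := Pc_deriv hKap hD hAu a f
    have h2 : HasDerivAt (fun ε : ℝ => Pc m' b' v (sc s a ε) g)
        (Pc m' b' v s (Thc (mu m' b' v) s a g)) 0 := Pc_deriv hKap hD hAv a g
    exact (th_deriv θ h1).fun_sub h2
  have hfin : (JM h s).mulVec w' = Complex.I • w' := by
    refine key hderiv hw0 (JM_cont hPv hKap hD h hAv hNv a) (by rw [sc_zero]) ?_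
    filter_upwards [hev] with ε hε
    obtain ⟨kAu, kNu, kAv, kNv⟩ := hUA _ hε
    obtain ⟨Ju, hJu, -⟩ := hJx m r b u _ kAu kNu
    have hJv := JM_isJ hPv h kAv ((nd_iff hPv h kAv).1 kNv)
    have hcomm := hL _ hε Ju _ hJu hJv
    have e2 : Matrix.toLin' (JM h (sc s a ε)) (θ (Pc m b u (sc s a ε) f)) =
        Complex.I • θ (Pc m b u (sc s a ε) f) := by
      have e3 := congrArg (fun T : Module.End ℂ (Fin r → ℂ) => T (Pc m b u (sc s a ε) f)) hcomm
      simp only [Module.End.mul_apply] at e3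
      rw [← e3, hJu.1 f hf, map_smul]
    have e1 : Matrix.toLin' (JM h (sc s a ε)) (w ε) = Complex.I • w ε := by
      rw [hw]
      simp only
      rw [map_sub, e2, hJv.1 g hg, smul_sub]
    rw [Matrix.toLin'_apply] at e1
    exact e1
  obtain ⟨J, hJ, huniq, -, hI, -⟩ := hJx m' r b' v s hAv hNv
  have hJ0 := huniq _ (JM_isJ hPv h hAv ((nd_iff hPv h hAv).1 hNv))
  obtain ⟨g', hg', hgg⟩ := (hI w').1 (by rw [← hJ0, Matrix.toLin'_apply, hfin])
  refine ⟨g', hg', ?_⟩
  rw [← hgg, hw', sub_add_cancel]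

end SEX
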