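import Pool.Agent.Lib.SE.X.Spec
import Pool.Agent.Lib.SE.Big.eM

/-!
# PROJECT SE-X, module xM: linked characters have equal exponents, two types (helper28)

Adapted from SE/Big/eM.lean.
-/

set_option autoImplicit false

open Module MeasureTheory Topology

noncomputable section

namespace SEX

open HC HC.E HC.SE SEB SEQ SEG SEY

open cRk1_aux cDj_aux eM_aux in
/-- THE EXPONENTS OF LINKED CHARACTERS ARE EQUAL. -/
theorem txM : S_xS → S_cPv → S_cKap → S_cD → S_cE → S_xM := by
  intro hS hPv hKap hD hE m m' r b b' u v U hU hUne hUA hUN θ hθ hLk hp hvp hneg j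
  obtain ⟨s, hs⟩ := hUne
  obtain ⟨hAu, hNu, hAv, hNv⟩ := hUA s hs
  have hinj : Function.Injective s := hAu.2.1.2.1
  have hr : sg m r b u ≤ r := by
    unfold sg
    refine (Finset.card_filter_le _ _).trans ?_
    rw [Finset.card_univ, Fintype.card_fin]
  set a : Polynomial ℂ := ac s j with ha
  set f : Polynomial ℂ := Polynomial.X - Polynomial.C (s j) with hf
  have h1d : (1 : Polynomial ℂ).degree < (sg m r b u : WithBot ℕ) := by
    rw [Polynomial.degree_one]
    exact_mod_cast (by omega : 0 < sg m r b u)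
  have hfd : f.degree < (sg m r b u : WithBot ℕ) := by
    rw [hf, Polynomial.degree_X_sub_C]
    exact_mod_cast (by omega : 1 < sg m r b u)
  set σ : ℝ → Fin (r + 1) → ℂ := fun ε i => s i + (ε : ℂ) * a.eval (s i) with hσ
  have hσ0 : σ 0 = s := by
    funext i
    simp [hσ]
  have hσc : Continuous σ := by
    refine continuous_pi fun i => ?_
    exact continuous_const.add (Complex.continuous_ofReal.mul continuous_const)
  have hev : ∀ᶠ ε in 𝓝 (0 : ℝ), σ ε ∈ U := by
    refine hσc.continuousAt.eventually_mem ?_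
    rw [hσ0]
    exact hU.mem_nhds hs
  have hScal : ∀ s' ∈ U, ∃ c : ℂ, c ≠ 0 ∧ ∀ f : Polynomial ℂ,
      f.degree < (sg m r b u : WithBot ℕ) → θ (Pc m b u s' f) = c • Pc m' b' v s' f :=
    fun s' hs' => hS m m' r b b' u v U hU hUA θ hθ hLk (by omega) hvp hneg s' hs' (hUN s' hs')
  obtain ⟨c₀, hc₀, hc₀f⟩ := hScal s hs
  -- injectivity of the period vectors
  have hkapv := (hKap m' r b' v s hAv).2.2.2
  have hinjv : ∀ g : Polynomial ℂ, g.degree < (r : WithBot ℕ) → Pc m' b' v s g = 0 → g = 0 := by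
    intro g hg h0
    refine hUN s hs g hg fun k => ?_
    have h1 : kap m' b' v k * Ic (mu m' b' v) s k (fun x => g.eval x) = 0 := congrFun h0 k
    exact (mul_eq_zero.1 h1).resolve_left (hkapv k).1
  have hr0 : (0 : WithBot ℕ) < (r : WithBot ℕ) := by
    exact_mod_cast (by omega : 0 < r)
  have hr1 : (1 : WithBot ℕ) < (r : WithBot ℕ) := by
    exact_mod_cast (by omega : 1 < r)
  have hy0 : Pc m' b' v (σ 0) 1 ≠ 0 := by
    rw [hσ0]
    intro h0
    have := hinjv 1 (by rw [Polynomial.degree_one]; exact hr0) h0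
    exact one_ne_zero this
  have hDu := fun g => Pc_deriv hKap hD hAu a g
  have hDv := fun g => Pc_deriv hKap hD hAv a g
  obtain ⟨c', hc'⟩ := common (x := fun ε => θ (Pc m b u (σ ε) 1))
    (y := fun ε => Pc m' b' v (σ ε) 1) (x₁ := fun ε => θ (Pc m b u (σ ε) f))
    (y₁ := fun ε => Pc m' b' v (σ ε) f) (deriv_theta θ (hDu 1)) (hDv 1)
    (deriv_theta θ (hDu f)) (hDv f) hy0
    (by
      filter_upwards [hev] with ε hε
      obtain ⟨c, _, hc⟩ := hScal _ hε
      exact ⟨c, hc 1 h1d, hc f hfd⟩) c₀ (by simp only [hσ0]; exact hc₀f 1 h1d)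
  simp only [hσ0] at hc'
  -- the derivatives
  have hEu : ∀ (m b w), Admc m b w s → Pc m b w s (Thc (mu m b w) s a f) =
      (mu m b w j : ℂ) • Pc m b w s 1 := by
    intro m b w hw
    obtain ⟨hadd, hsm⟩ := hPv m r b w s hw
    have hQ : Pc m b w s (Thc (mu m b w) s (Q s) 1) = 0 := by
      funext k
      have h1 : Ic (mu m b w) s k (fun x => (Thc (mu m b w) s (Q s) 1).eval x) = 0 :=
        hE r (mu m b w) s (hKap m r b w s hw).2.1 hw.1 1 k
      change kap m b w k * Ic (mu m b w) s k (fun x => (Thc (mu m b w) s (Q s) 1).eval x) = 0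
      rw [h1, mul_zero]
    have h2 : f = f * 1 := (mul_one f).symm
    rw [h2, hf, ha, Th_ac (mu m b w) s hinj j 1, hadd, hsm, hsm, hQ, smul_zero, zero_add]
  rw [hEu m b u hAu, hEu m' b' v hAv, map_smul, hc₀f 1 h1d] at hc'
  obtain ⟨hadd, hsm⟩ := hPv m' r b' v s hAv
  set g : Polynomial ℂ := Polynomial.C (c₀ * ((mu m b u j : ℂ) - (mu m' b' v j : ℂ))) * 1 +
    Polynomial.C (-c') * f with hg
  have hg0 : Pc m' b' v s g = 0 := by
    rw [hg, hadd, hsm, hsm]
    have h3 : (c₀ * ((mu m b u j : ℂ) - (mu m' b' v j : ℂ))) • Pc m' b' v s 1 + -c' • Pc m' b' v s f =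
        (mu m b u j : ℂ) • c₀ • Pc m' b' v s 1 -
          (c₀ • (mu m' b' v j : ℂ) • Pc m' b' v s 1 + c' • Pc m' b' v s f) := by
      module
    rw [h3, hc', sub_self]
  have hgd : g.degree < (r : WithBot ℕ) := by
    rw [hg]
    refine lt_of_le_of_lt (Polynomial.degree_add_le _ _) (max_lt ?_ ?_)
    · rw [mul_one]
      exact lt_of_le_of_lt Polynomial.degree_C_le hr0
    · have h4 : (Polynomial.C (-c') * f).degree ≤ f.degree := by
        rw [Polynomial.degree_mul]
        calc _ ≤ 0 + f.degree := add_le_add Polynomial.degree_C_le le_rfl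
          _ = _ := zero_add _
      refine lt_of_le_of_lt h4 ?_
      rw [hf, Polynomial.degree_X_sub_C]
      exact hr1
  have hgz := hinjv g hgd hg0
  have h4 := congrArg (fun q : Polynomial ℂ => q.eval (s j)) hgz
  simp only [hg, hf, Polynomial.eval_add, Polynomial.eval_mul, Polynomial.eval_C,
    mul_one, Polynomial.eval_sub, Polynomial.eval_X, sub_self, mul_zero,
    add_zero, Polynomial.eval_zero] at h4
  have h5 := (mul_eq_zero.1 h4).resolve_left hc₀
  have h6 : (mu m b u j : ℂ) = (mu m' b' v j : ℂ) := sub_eq_zero.1 h5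
  exact_mod_cast h6

end SEX
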