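import Pool.Agent.Lib.SE.X.Spec
import Pool.Agent.Lib.SE.Big.eS
import Pool.Agent.Lib.SE.Big.eM

/-!
# PROJECT SE-X, module xN: `J` is not constant in the direction of one branch point (helper92)
-/

set_option autoImplicit false

open Module MeasureTheory Topology

noncomputable section

namespace SEX

open HC HC.E HC.SE SEB SEQ SEG SEY

open cRk1_aux cDj_aux eM_aux eS_aux in
theorem txN : S_cN → S_cKap → S_cPv → S_cE → S_cJx → S_cD → S_Sg → S_xN := by
  intro hN hKap hPv hE hJx hD hSg m r b u U l hp hq hUo hUne hU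
  obtain ⟨s₂, hs₂⟩ := hUne
  obtain ⟨-, c2, -, -⟩ := hKap m r b u s₂ (hU s₂ hs₂).1
  have hde : Dense ({s : Fin (r + 1) → ℂ | Inc s ∧ ¬ Nj (mu m b u) s})ᶜ :=
    dense_of_mem_residual (hN r (mu m b u) c2)
  obtain ⟨s, hs, hs'⟩ := hde.inter_open_nonempty _ hUo ⟨s₂, hs₂⟩
  have hadm := (hU s hs).1
  have hnd := (hU s hs).2
  have hNj : Nj (mu m b u) s := by
    by_contra hn
    exact hs' ⟨hadm.1, hn⟩
  refine ⟨s, hs, fun hcon => ?_⟩
  have D := mkDt hPv hKap hE hSg hadm
  obtain ⟨-, -, -, hkap⟩ := hKap m r b u s hadm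
  have hinj : ∀ f : Polynomial ℂ, f.degree < (r : WithBot ℕ) → Pc m b u s f = 0 → f = 0 := by
    intro f hf h0
    refine hNj f hf fun k => ?_
    have h1 : kap m b u k * Ic (mu m b u) s k (fun x => f.eval x) = 0 := congrFun h0 k
    exact (mul_eq_zero.1 h1).resolve_left (hkap k).1
  obtain ⟨J, hJ, -, -, hplus, -, -, -⟩ := hJx m r b u s hadm hnd
  have hev : ∀ᶠ ε : ℝ in 𝓝 (0 : ℝ),
      IsJc m b u (fun j => if j = l then s j + (ε : ℂ) else s j) J :=
    (Complex.continuous_ofReal.tendsto 0).eventually (hcon J hJ)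
  have hdeg : (1 : Polynomial ℂ).degree < (sg m r b u : WithBot ℕ) := by
    rw [Polynomial.degree_one]
    exact_mod_cast hp
  set σ : ℝ → Fin (r + 1) → ℂ := fun ε i => s i + (ε : ℂ) * (ac s l).eval (s i) with hσ
  have hσe : ∀ ε : ℝ, σ ε = fun j => if j = l then s j + (ε : ℂ) else s j := by
    intro ε
    funext j
    simp only [hσ]
    rw [eval_ac s D.inj l j]
    split_ifs with h
    · rw [mul_one]
    · rw [mul_zero, add_zero]
  have hder : HasDerivAt (fun ε : ℝ => Pc m b u (σ ε) 1)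
      (Pc m b u s (Thc (mu m b u) s (ac s l) 1)) 0 := Pc_deriv hKap hD hadm (ac s l) 1
  have h1 := deriv_theta J hder
  have h2 := hder.const_smul Complex.I
  have heq : (fun ε : ℝ => J (Pc m b u (σ ε) 1)) =ᶠ[𝓝 (0 : ℝ)]
      fun ε : ℝ => Complex.I • Pc m b u (σ ε) 1 := by
    filter_upwards [hev] with ε hε
    rw [hσe ε]
    exact hε.1 1 hdeg
  have h3 : J (Pc m b u s (Thc (mu m b u) s (ac s l) 1)) =
      Complex.I • Pc m b u s (Thc (mu m b u) s (ac s l) 1) :=
    h1.unique (h2.congr_of_eventuallyEq heq)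
  obtain ⟨g, hg, hge⟩ := (hplus _).1 h3
  have hsg := D.sgm
  refine one_ne_zero (D.nsp hinj (p := sg m r b u) (by omega) l 1 g hg ?_)
  rw [one_smul]
  exact hge

end SEX
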