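import Pool.Agent.Lib.SE.X.Spec
import Pool.Agent.Lib.SE.Big.cSo

/-!
# PROJECT SE-X, module xP: preimages of meagre sets, sorting (helper17)
-/

set_option autoImplicit false

open Module MeasureTheory Topology

noncomputable section

namespace SEX

open HC HC.E HC.SE SEB SEQ SEG SEY

namespace xP_aux

/-- `s ↦ s ∘ ι` -/
def cm {k n : ℕ} (ι : Fin k → Fin n) : (Fin n → ℂ) →L[ℂ] (Fin k → ℂ) :=
  ContinuousLinearMap.pi fun j => ContinuousLinearMap.proj (R := ℂ) (ι j)

theorem cm_apply {k n : ℕ} (ι : Fin k → Fin n) (s : Fin n → ℂ) : cm ι s = s ∘ ι := rfl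

theorem cm_surj {k n : ℕ} {ι : Fin k → Fin n} (hι : Function.Injective ι) :
    Function.Surjective (cm ι) := fun t => by
  obtain ⟨s, hs⟩ := (hι.surjective_comp_right (γ := ℂ)) t
  exact ⟨s, hs⟩

theorem pre {k n : ℕ} (ι : Fin k → Fin n) (A : Set (Fin k → ℂ)) (hι : Function.Injective ι)
    (hA : IsMeagre A) : IsMeagre {s : Fin n → ℂ | s ∘ ι ∈ A} :=
  hA.preimage_of_isOpenMap (cm ι).continuous ((cm ι).isOpenMap (cm_surj hι))

end xP_aux

theorem txP : S_xP := by
  refine ⟨fun k n ι A hι hA => xP_aux.pre ι A hι hA, fun r n ι hι => ?_⟩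
  have h1 := tcSo r (fun _ => ∅) fun _ => IsMeagre.empty
  refine (xP_aux.pre ι _ hι h1).mono ?_
  intro s hs σ hσ
  exact absurd hσ (hs σ)

end SEX
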