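import Pool.Agent.Lib.SE.X.Spec
import Pool.Agent.Lib.SE.Big.eS

/-!
# PROJECT SE-X: a link is a scalar (module xS)
-/

set_option autoImplicit false

open Module

noncomputable section

namespace SEX

open HC HC.E HC.SE SEB SEQ SEG SEY

open eS_aux cRk1_aux in
theorem txS : S_eT → S_xD → S_cPv → S_cKap → S_cE → S_cJx → S_Sg → S_xS := by
  intro hT hD hPv hKap hE hJx hSg m m' r b b' u v U hU hAd θ hθ hLk hu hvu hmu s hs hNj
  obtain ⟨hAu, hNu, hAv, hNv⟩ := hAd s hs
  have Du := mkDt hPv hKap hE hSg hAu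
  have Dv := mkDt hPv hKap hE hSg hAv
  obtain ⟨-, -, -, hkap⟩ := hKap m' r b' v s hAv
  have hinj : ∀ f : Polynomial ℂ, f.degree < (r : WithBot ℕ) → Pc m' b' v s f = 0 → f = 0 := by
    intro f hf h0
    refine hNj f hf fun k => ?_
    have h1 : kap m' b' v k * Ic (mu m' b' v) s k (fun x => f.eval x) = 0 := congrFun h0 k
    exact (mul_eq_zero.1 h1).resolve_left (hkap k).1
  have hsg := Du.sgm
  set p := sg m r b u with hp
  have hpr : p + 1 ≤ r := by omega
  have hprW : ((p : ℕ) : WithBot ℕ) ≤ ((r : ℕ) : WithBot ℕ) := by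
    exact_mod_cast (by omega : p ≤ r)
  obtain ⟨Ju, hJu, -, -, -, -, -, -⟩ := hJx m r b u s hAu hNu
  obtain ⟨Jv, hJv, -, -, hplus, -, -, -⟩ := hJx m' r b' v s hAv hNv
  have hcomm := hLk s hs Ju Jv hJu hJv
  -- the image of a form of the first kind
  have hex : ∀ f : Polynomial ℂ, f.degree < (p : WithBot ℕ) →
      ∃ g : Polynomial ℂ, g.degree < (p : WithBot ℕ) ∧ θ (Pc m b u s f) = Pc m' b' v s g := by
    intro f hf
    have h1 : Jv (θ (Pc m b u s f)) = Complex.I • θ (Pc m b u s f) := by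
      have h2 := congrArg (fun T : Module.End ℂ (Fin r → ℂ) => T (Pc m b u s f)) hcomm
      simp only [Module.End.mul_apply] at h2
      rw [← h2, hJu.1 f hf, map_smul]
    obtain ⟨g, hg, hge⟩ := (hplus _).1 h1
    rw [hvu] at hg
    exact ⟨g, hg, hge⟩
  have hun : ∀ g g' : Polynomial ℂ, g.degree < (p : WithBot ℕ) → g'.degree < (p : WithBot ℕ) →
      Pc m' b' v s g = Pc m' b' v s g' → g = g' := by
    intro g g' hg hg' h
    rw [← sub_eq_zero]
    refine hinj _ ?_ ?_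
    · exact lt_of_le_of_lt (Polynomial.degree_sub_le _ _)
        (max_lt (lt_of_lt_of_le hg hprW) (lt_of_lt_of_le hg' hprW))
    · rw [Dv.sub, h, sub_self]
  choose! G hG1 hG2 using hex
  have hmem : ∀ f : Polynomial.degreeLT ℂ p,
      (f : Polynomial ℂ).degree < (p : WithBot ℕ) := fun f =>
    Polynomial.mem_degreeLT.1 f.2
  have hGadd : ∀ f g : Polynomial ℂ, f.degree < (p : WithBot ℕ) → g.degree < (p : WithBot ℕ) →
      G (f + g) = G f + G g := by
    intro f g hf hg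
    have hfg : (f + g).degree < (p : WithBot ℕ) :=
      lt_of_le_of_lt (Polynomial.degree_add_le _ _) (max_lt hf hg)
    refine hun _ _ (hG1 _ hfg) ?_ ?_
    · exact lt_of_le_of_lt (Polynomial.degree_add_le _ _) (max_lt (hG1 _ hf) (hG1 _ hg))
    · rw [← hG2 _ hfg, Du.add, Dv.add, map_add, hG2 _ hf, hG2 _ hg]
  have hdC : ∀ (c : ℂ) (q : Polynomial ℂ), q.degree < (p : WithBot ℕ) →
      (Polynomial.C c * q).degree < (p : WithBot ℕ) := by
    intro c q hq
    refine lt_of_le_of_lt ?_ hq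
    rw [Polynomial.degree_mul]
    calc _ ≤ 0 + q.degree := add_le_add Polynomial.degree_C_le le_rfl
      _ = _ := zero_add _
  have hGsm : ∀ (c : ℂ) (f : Polynomial ℂ), f.degree < (p : WithBot ℕ) →
      G (c • f) = c • G f := by
    intro c f hf
    rw [Polynomial.smul_eq_C_mul, Polynomial.smul_eq_C_mul]
    refine hun _ _ (hG1 _ (hdC c f hf)) (hdC c _ (hG1 _ hf)) ?_
    rw [← hG2 _ (hdC c f hf), Du.sm, Dv.sm, map_smul, hG2 _ hf]
  obtain ⟨T, hTG⟩ : ∃ T : Polynomial.degreeLT ℂ p →ₗ[ℂ] Polynomial.degreeLT ℂ p,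
      ∀ f, (T f : Polynomial ℂ) = G f := mkT G hG1 hGadd hGsm
  have hTe : ∀ f : Polynomial.degreeLT ℂ p,
      θ (Pc m b u s (f : Polynomial ℂ)) = Pc m' b' v s (T f : Polynomial ℂ) := fun f => by
    rw [hTG, hG2 _ (hmem f)]
  -- zeros
  have hzero : ∀ (j : Fin (r + 1)) (f : Polynomial.degreeLT ℂ p),
      (f : Polynomial ℂ).eval (s j) = 0 → (T f : Polynomial ℂ).eval (s j) = 0 := by
    intro j f hf
    set f1 := (f : Polynomial ℂ) /ₘ (Polynomial.X - Polynomial.C (s j)) with hf1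
    have hf1d : f1.degree < (p : WithBot ℕ) :=
      lt_of_le_of_lt (Polynomial.degree_divByMonic_le _ _) (hmem f)
    set g : Polynomial ℂ := (T f : Polynomial ℂ) with hg
    have hgd : g.degree < (p : WithBot ℕ) := hmem (T f)
    set g1 := g /ₘ (Polynomial.X - Polynomial.C (s j)) with hg1
    have hg1d : g1.degree < (p : WithBot ℕ) :=
      lt_of_le_of_lt (Polynomial.degree_divByMonic_le _ _) hgd
    obtain ⟨g', hg'd, hg'⟩ := hD m m' r b b' u v U hU hAd θ hLk s hs f g (hmem f)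
      (by rw [hvu]; exact hgd) (hTe f) (ac s j)
    rw [hvu] at hg'd
    rw [Du.Th_all, Dv.Th_all, hf, zero_smul, zero_add, map_smul, ← hf1, ← hg1,
      hG2 f1 hf1d] at hg'
    refine Dv.nsp hinj hpr j (g.eval (s j))
      (Polynomial.C (mu m b u j : ℂ) * G f1 - g' - Polynomial.C (mu m' b' v j : ℂ) * g1) ?_ ?_
    · refine lt_of_le_of_lt (Polynomial.degree_sub_le _ _) (max_lt ?_ (hdC _ _ hg1d))
      exact lt_of_le_of_lt (Polynomial.degree_sub_le _ _) (max_lt (hdC _ _ (hG1 f1 hf1d)) hg'd)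
    · rw [Dv.sub, Dv.sub, Dv.sm, Dv.sm, hg']
      abel
  obtain ⟨c, hc⟩ := hT p (fun j => s (Fin.castLE (by omega) j))
    (fun i j h => Fin.castLE_injective _ (Du.inj h)) T (fun j f hf => hzero _ f hf)
  have hfin : ∀ f : Polynomial ℂ, f.degree < (p : WithBot ℕ) →
      θ (Pc m b u s f) = c • Pc m' b' v s f := by
    intro f hf
    have h1 := hTe ⟨f, Polynomial.mem_degreeLT.2 hf⟩
    rw [hc] at h1
    change θ (Pc m b u s f) = Pc m' b' v s (c • f) at h1
    rw [h1, Polynomial.smul_eq_C_mul, Dv.sm]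
  refine ⟨c, ?_, hfin⟩
  rintro rfl
  have h1d : (1 : Polynomial ℂ).degree < (p : WithBot ℕ) := by
    rw [Polynomial.degree_one]
    exact_mod_cast (by omega : 0 < p)
  have h2 := hfin 1 h1d
  rw [zero_smul] at h2
  have h3 : Pc m b u s 1 = 0 := hθ (by rw [h2, map_zero])
  have h4 := (hNu 1 0 h1d (by rw [Polynomial.degree_zero]; exact WithBot.bot_lt_coe _)
    (by rw [h3, Pc_zero, star_zero, add_zero])).1
  exact one_ne_zero h4

end SEX
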