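import Pool.Agent.Lib.SE.X.Spec

/-!
# PROJECT SE-X, module xU: arithmetic of exponents (helper13)
-/

set_option autoImplicit false

open Module MeasureTheory Topology

noncomputable section

namespace SEX

open HC HC.E HC.SE SEB SEQ SEG SEY

namespace xU_aux

/-- the residues `u b_j mod m` and `m` have no common divisor -/
theorem prim {ι : Type} {m u : ℕ} (b : ι → ℕ) (hu : u.Coprime m)
    (hb : ∀ d, d ∣ m → (∀ j, d ∣ b j) → d = 1) :
    ∀ d, d ∣ m → (∀ j, d ∣ (u * b j) % m) → d = 1 := by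
  intro d hd h
  refine hb d hd fun j => ?_
  have h1 : d ∣ u * b j := (Nat.dvd_mod_iff hd).1 (h j)
  have h2 : Nat.Coprime d u := (hu.coprime_dvd_right hd).symm
  exact h2.dvd_of_dvd_mul_left h1

/-- divisibility from proportional residues -/
theorem dvd_of {ι : Type} {m m' : ℕ} (hm : 0 < m) (n n' : ι → ℕ)
    (hn : ∀ d, d ∣ m → (∀ j, d ∣ n j) → d = 1) (h : ∀ j, n j * m' = n' j * m) : m ∣ m' := by
  have hg : 0 < Nat.gcd m m' := Nat.gcd_pos_of_pos_left _ hm
  have hd : m / Nat.gcd m m' = 1 := by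
    refine hn _ (Nat.div_dvd_of_dvd (Nat.gcd_dvd_left m m')) fun j => ?_
    have hc := Nat.coprime_div_gcd_div_gcd hg
    refine hc.dvd_of_dvd_mul_right ?_
    have h4 : m / Nat.gcd m m' * Nat.gcd m m' ∣ n j * (m' / Nat.gcd m m') * Nat.gcd m m' := by
      rw [Nat.div_mul_cancel (Nat.gcd_dvd_left m m'), mul_assoc,
        Nat.div_mul_cancel (Nat.gcd_dvd_right m m'), h j]
      exact Nat.dvd_mul_left _ _
    exact Nat.dvd_of_mul_dvd_mul_right hg h4
  have h6 : m = Nat.gcd m m' := by
    have := Nat.div_mul_cancel (Nat.gcd_dvd_left m m')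
    rw [hd, one_mul] at this
    exact this.symm
  rw [h6]
  exact Nat.gcd_dvd_right m m'

end xU_aux

/-- ARITHMETIC OF EXPONENTS. -/
theorem txU : S_xU := by
  intro m m' r b b' u v s s' hc hc' hu hv h
  obtain ⟨hm3, -, -, -, hb⟩ := hc
  obtain ⟨hm3', -, -, -, hb'⟩ := hc'
  have hm : 0 < m := by omega
  have hm' : 0 < m' := by omega
  have hmR : (m : ℝ) ≠ 0 := by exact_mod_cast hm.ne'
  have hmR' : (m' : ℝ) ≠ 0 := by exact_mod_cast hm'.ne'
  have key : ∀ j, (u * b j) % m * m' = (v * b' j) % m' * m := by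
    intro j
    have h1 := h j
    unfold mu at h1
    have h2 : (nn m b u j : ℝ) * m' = (nn m' b' v j : ℝ) * m := by
      field_simp at h1
      linarith
    have h3 : nn m b u j * m' = nn m' b' v j * m := by exact_mod_cast h2
    unfold nn at h3
    have h4 := Nat.mod_lt (u * b j) hm
    have h5 := Nat.mod_lt (v * b' j) hm'
    rw [Nat.sub_mul, Nat.sub_mul] at h3
    have h6 : (u * b j) % m * m' < m * m' := Nat.mul_lt_mul_of_pos_right h4 hm'
    have h7 : (v * b' j) % m' * m < m' * m := Nat.mul_lt_mul_of_pos_right h5 hm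
    rw [mul_comm m' m] at h3 h7
    omega
  have e1 : m ∣ m' := xU_aux.dvd_of hm _ _ (xU_aux.prim b hu hb) key
  have e2 : m' ∣ m := xU_aux.dvd_of hm' _ _ (xU_aux.prim b' hv hb') fun j => (key j).symm
  have e : m = m' := Nat.dvd_antisymm e1 e2
  subst e
  have hmod : ∀ j, u * b j ≡ v * b' j [MOD m] := by
    intro j
    exact Nat.eq_of_mul_eq_mul_right hm (key j)
  refine ⟨rfl, hmod, ?_⟩
  intro w x y hx hy
  have hxy : ∀ j, (x * b j) % m = (y * b' j) % m := by
    intro j
    have h1 : x * b j ≡ w * u * b j [MOD m] := hx.mul_right _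
    have h2 : y * b' j ≡ w * v * b' j [MOD m] := hy.mul_right _
    have h3 : w * u * b j ≡ w * v * b' j [MOD m] := by
      rw [mul_assoc, mul_assoc]
      exact (hmod j).mul_left _
    exact (h1.trans h3).trans h2.symm
  unfold sg
  simp only [hxy]

end SEX
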