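import Pool.Agent.Lib.SE.Y.Main
import Pool.Agent.Lib.SE.X.MX
import Pool.Agent.Lib.SE.Big.eT
import Pool.Agent.Lib.SE.Big.eO
import Pool.Agent.Lib.SE.X.xD
import Pool.Agent.Lib.SE.X.xS
import Pool.Agent.Lib.SE.X.xM
import Pool.Agent.Lib.SE.X.xB
import Pool.Agent.Lib.SE.X.xF
import Pool.Agent.Lib.SE.X.xU
import Pool.Agent.Lib.SE.X.xN
import Pool.Agent.Lib.SE.X.xC
import Pool.Agent.Lib.SE.X.xP

/-!
# PROJECT SE-X: the modules (helper64)
-/

set_option autoImplicit false

open Module MeasureTheory Topology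

noncomputable section

namespace SEX

open HC HC.E HC.SE SEB SEQ SEG SEY

theorem xD' : S_xD := txD cPv' cKap' cD' cJx' tSg

theorem xS' : S_xS := txS teT xD' cPv' cKap' cE' cJx' tSg

theorem xM' : S_xM := txM xS' cPv' cKap' cD' cE'

theorem xB' : S_xB := txB cI' cKap' cPv' cC' cJx' cN' tSg xM' (teO cI' cC')

theorem xF' : S_xF := txF xB' cKap' cJx' tSg

theorem xN' : S_xN := txN cN' cKap' cPv' cE' cJx' cD' tSg

theorem xC' : S_xC := txC xN' cKap' cPv' cC' cI' cJx' cCj' tSg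

theorem modsX : ModsX where
  kI := tkI
  kC := tkC
  kA := tkA
  kT := tkT
  Jx := cJx'
  Sg := tSg
  So := tcSo
  Pm := tcPm
  Pn := tPnew tSg (tBas tPj)
  xF := xF'
  xU := txU
  xC := xC'
  xP := txP

/-- **Jnx.** One very general point. -/
theorem tJnx : S_Jnx := jnx_of modsX

end SEX
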