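import Pool.Agent.Lib.SE.X.Spec
import Pool.Agent.Lib.SE.G.SpecK
import Pool.Agent.Lib.SE.G.PPw

/-!
# PROJECT SE-X: one very general point, assembly (helper64)
-/

set_option autoImplicit false

open Module MeasureTheory Topology

noncomputable section

namespace SEX

open HC HC.E HC.SE SEB SEQ SEG SEY

/-- The modules. -/
structure ModsX : Prop where
  kI : S_kI
  kC : S_kC
  kA : S_kA
  kT : S_kT
  Jx : S_cJx
  Sg : S_Sg
  So : S_cSo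
  Pm : S_cPm
  Pn : ∀ (T : AV) (m r : ℕ) (s : Fin (r + 1) → ℂ) (b : Fin (r + 1) → ℕ), IsCov m s b →
    ∀ (N : New T m s b) (D : Cyc T m), D.Z = N.Z →
    ∀ u : (ZMod m)ˣ, D.p u = sg m r b (u : ZMod m).val
  xF : S_xF
  xU : S_xU
  xC : S_xC
  xP : S_xP

/-- Two covers are isogenous or independent. -/
def InX (m r : ℕ) (b : Fin (r + 1) → ℕ) (m' r' : ℕ) (b' : Fin (r' + 1) → ℕ)
    (s : Fin (r + 1) → ℂ) (s' : Fin (r' + 1) → ℂ) : Prop :=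
  ∀ T T' : AV, IsCov m s b → IsCov m' s' b' → ∀ (N : New T m s b) (D : Cyc T m), D.Z = N.Z →
    GFw D r → ∀ (N' : New T' m' s' b') (D' : Cyc T' m'), D'.Z = N'.Z → GFw D' r' →
    Isg T T' ∨ Ind D D'

theorem pos_of_hypW {m r : ℕ} {b : Fin (r + 1) → ℕ} (h : HypW m r b) :
    ∃ u < m, u.Coprime m ∧ 0 < sg m r b u := by
  obtain ⟨u, h1, h2, h3, -⟩ := h
  exact ⟨u, h1, h2, h3⟩

/-- Different ranks. -/
theorem inX_ne (M : ModsX) {m r : ℕ} {b : Fin (r + 1) → ℕ} {m' r' : ℕ} {b' : Fin (r' + 1) → ℕ}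
    {s : Fin (r + 1) → ℂ} {s' : Fin (r' + 1) → ℂ} (hrr : r ≠ r') : InX m r b m' r' b' s s' := by
  intro T T' hc hc' N D hZ hD N' D' hZ' hD'
  right
  intro h hh s t
  by_contra hn
  exact hrr (M.kT T T' m m' r r' D D' hD hD' h hh s t hn).1

/-- The eigenspaces of `J`. -/
theorem ker_le {r : ℕ} {B J J' : Module.End ℂ (Fin r → ℂ)} (hB : Function.Injective B)
    (h : B * J = J' * B) (c : ℂ) :
    finrank ℂ (LinearMap.ker (J - c • (1 : Module.End ℂ (Fin r → ℂ)))) ≤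
      finrank ℂ (LinearMap.ker (J' - c • (1 : Module.End ℂ (Fin r → ℂ)))) := by
  rw [(Submodule.equivMapOfInjective B hB
    (LinearMap.ker (J - c • (1 : Module.End ℂ (Fin r → ℂ))))).finrank_eq]
  refine Submodule.finrank_mono ?_
  rintro _ ⟨x, hx, rfl⟩
  have hx' : J x = c • x := by
    have := LinearMap.mem_ker.1 hx
    rw [LinearMap.sub_apply, LinearMap.smul_apply, Module.End.one_apply, sub_eq_zero] at this
    exact this
  have h1 := congrArg (fun T : Module.End ℂ (Fin r → ℂ) => T x) h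
  simp only [Module.End.mul_apply] at h1
  rw [LinearMap.mem_ker, LinearMap.sub_apply, LinearMap.smul_apply, Module.End.one_apply, ← h1,
    hx', map_smul, sub_self]

/-- A link preserves the signature. -/
theorem sg_eq (M : ModsX) {m m' r : ℕ} {b b' : Fin (r + 1) → ℕ} {u v : ℕ}
    {s s' : Fin (r + 1) → ℂ} (hA : Admc m b u s) (hN : NDc m b u s) (hA' : Admc m' b' v s')
    (hN' : NDc m' b' v s') {B J J' : Module.End ℂ (Fin r → ℂ)} (hB : Function.Injective B)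
    (hJ : IsJc m b u s J) (hJ' : IsJc m' b' v s' J') (h : B * J = J' * B) :
    sg m r b u = sg m' r b' v ∧ sg m r b (m - u) = sg m' r b' (m' - v) := by
  obtain ⟨J₁, -, h1, -, -, -, h2, h3⟩ := M.Jx m r b u s hA hN
  obtain ⟨J₂, -, h1', -, -, -, h2', h3'⟩ := M.Jx m' r b' v s' hA' hN'
  obtain rfl := h1 J hJ
  obtain rfl := h1' J' hJ'
  have k1 := ker_le hB h Complex.I
  have k2 := ker_le hB h (-Complex.I)
  rw [h2, h2'] at k1
  have e : ∀ X : Module.End ℂ (Fin r → ℂ), X - (-Complex.I) • (1 : Module.End ℂ (Fin r → ℂ)) =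
      X + Complex.I • (1 : Module.End ℂ (Fin r → ℂ)) := by
    intro X
    refine LinearMap.ext fun v => ?_
    rw [LinearMap.sub_apply, LinearMap.add_apply, LinearMap.smul_apply, LinearMap.smul_apply]
    module
  rw [e, e, h3, h3'] at k2
  have k3 := M.Sg m r s b hA.2.1 u hA.2.2.1 hA.2.2.2
  have k4 := M.Sg m' r s' b' hA'.2.1 v hA'.2.2.1 hA'.2.2.2
  omega

/-! ## The same branch points -/

theorem pairS_inc (M : ModsX) (m r : ℕ) (b : Fin (r + 1) → ℕ) (m' : ℕ) (b' : Fin (r + 1) → ℕ)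
    (hr : 3 ≤ r) (hW : HypW m r b) (hW' : HypW m' r b') :
    IsMeagre {s : Fin (r + 1) → ℂ | Inc s ∧ ¬ InX m r b m' r b' s s} := by
  obtain ⟨N₀, hN₀, hC⟩ := M.kC m r b (by omega) (pos_of_hypW hW)
  obtain ⟨N₁, hN₁, hC'⟩ := M.kC m' r b' (by omega) (pos_of_hypW hW')
  obtain ⟨u, hum, huc, hp, hq⟩ := hW'
  have hmU : IsMeagre (⋃ z : {z : ℕ // (∃ j, mu m b z j ≠ mu m' b' u j) ∧ 0 < sg m r b z ∧
      0 < sg m r b (m - z)}, {s : Fin (r + 1) → ℂ | AdX m b z.1 m' b' u s ∧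
        LkB m b z.1 m' b' u s}) :=
    isMeagre_iUnion fun z => M.xF m m' r b b' z.1 u hr z.2.1 z.2.2.1 z.2.2.2
  refine ((hN₀.union hN₁).union hmU).mono ?_
  rintro s ⟨hs, hno⟩
  by_contra hbad
  rw [Set.mem_union, Set.mem_union, not_or, not_or] at hbad
  obtain ⟨⟨hb0, hb1⟩, hb2⟩ := hbad
  refine hno fun T T' hc hc' N D hZ hD N' D' hZ' hD' => ?_
  by_contra hcon
  rw [not_or] at hcon
  obtain ⟨hisg, hind⟩ := hcon
  refine hind fun h hh s₀ t₀ => ?_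
  by_contra hn
  obtain ⟨v, hv, hJ⟩ := hC s hs hb0 hc T N D hZ
  obtain ⟨v', hv', hJ'⟩ := hC' s hs hb1 hc' T' N' D' hZ'
  obtain ⟨w, hw⟩ := exists_unit hum huc
  have hpw : D'.p w = sg m' r b' u := by rw [M.Pn T' m' r s b' hc' N' D' hZ', hw]
  have hpn : D'.p (-w) = sg m' r b' (m' - u) := by
    have : NeZero m' := ⟨by have := hc'.1; omega⟩
    rw [M.Pn T' m' r s b' hc' N' D' hZ', Hit_aux.neg_val hc'.1 w, hw]
  have hsum : D'.p w + D'.p (-w) = r := (dim_all T' m' r D' hD'.hm hD'.dim w).2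
  obtain ⟨s₁, θ, hθ, hθJ⟩ := (M.kT T T' m m' r r D D' hD hD' h hh s₀ t₀ hn).2 w (by omega)
    (by omega)
  obtain ⟨B, hB, hBJ⟩ := M.kA T T' m m' r D D' hD hD' v v' hv hv' h hh s₁ w θ hθ hθJ
  obtain ⟨J₁, hJ₁, -⟩ := M.kI T m r D hD.hm hD.dim v hv s₁
  obtain ⟨J₂, hJ₂, -⟩ := M.kI T' m' r D' hD'.hm hD'.dim v' hv' w
  have hm3 := hc.1
  have : NeZero m := ⟨by omega⟩
  have hs₁m : (s₁ : ZMod m).val < m := ZMod.val_lt _
  have hs₁c : (s₁ : ZMod m).val.Coprime m := ZMod.val_coe_unit_coprime s₁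
  have hA : Admc m b (s₁ : ZMod m).val s := ⟨hs, hc, hs₁m, hs₁c⟩
  have hA' : Admc m' b' u s := ⟨hs, hc', hum, huc⟩
  have hN : NDc m b (s₁ : ZMod m).val s := (hJ s₁).1
  have hN' : NDc m' b' u s := by
    have := (hJ' w).1
    rwa [hw] at this
  have hJc : IsJc m b (s₁ : ZMod m).val s J₁ := (hJ s₁).2 J₁ hJ₁
  have hJc' : IsJc m' b' u s J₂ := by
    have := (hJ' w).2 J₂ hJ₂
    rwa [hw] at this
  have hrel := hBJ _ _ hJ₁ hJ₂
  obtain ⟨hsg1, hsg2⟩ := sg_eq M hA hN hA' hN' hB.1 hJc hJc' hrel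
  have hmu : ∀ j, mu m b (s₁ : ZMod m).val j = mu m' b' u j := by
    by_contra hne
    push Not at hne
    refine hb2 (Set.mem_iUnion.2 ⟨⟨(s₁ : ZMod m).val, hne, by omega, by omega⟩,
      ⟨hA, hN, hA', hN'⟩, B, hB, ?_⟩)
    intro J J' h1 h2
    obtain ⟨J₃, -, h3, -⟩ := M.Jx m r b _ s hA hN
    obtain ⟨J₄, -, h4, -⟩ := M.Jx m' r b' _ s hA' hN'
    rw [h3 J h1, h4 J' h2, ← h3 J₁ hJc, ← h4 J₂ hJc']
    exact hrel
  obtain ⟨rfl, -, hU⟩ := M.xU m m' r b b' _ u s s hc hc' hs₁c huc hmu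
  obtain ⟨g, rfl⟩ : ∃ g : (ZMod m)ˣ, w = g * s₁ := ⟨w * s₁⁻¹, (inv_mul_cancel_right _ _).symm⟩
  refine hisg (same_isgw tPrj tTh1g (tCutg tTrS tTrJ) (tTrE tTrS) (tHomg tRSH)
    (tIsog tPrj tGaH) hD hD' g (fun x => ?_) hh s₁ θ hθ)
  rw [M.Pn T m r s b hc N D hZ, M.Pn T' m r s b' hc' N' D' hZ']
  refine hU ((x * s₁⁻¹ : (ZMod m)ˣ) : ZMod m).val _ _ ?_ ?_
  · rw [← ZMod.natCast_eq_natCast_iff, Nat.cast_mul, ZMod.natCast_zmod_val,
      ZMod.natCast_zmod_val, ZMod.natCast_zmod_val, ← Units.val_mul]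
    exact congrArg Units.val (inv_mul_cancel_right x s₁).symm
  · rw [← ZMod.natCast_eq_natCast_iff, ← hw, Nat.cast_mul, ZMod.natCast_zmod_val,
      ZMod.natCast_zmod_val, ZMod.natCast_zmod_val, ← Units.val_mul]
    refine congrArg Units.val ?_
    rw [mul_comm g s₁, ← mul_assoc, inv_mul_cancel_right, mul_comm]

/-- Permutations of both sets of branch points. -/
theorem inX_perm (M : ModsX) {m r : ℕ} {b : Fin (r + 1) → ℕ} {m' r' : ℕ} {b' : Fin (r' + 1) → ℕ}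
    {s : Fin (r + 1) → ℂ} {s' : Fin (r' + 1) → ℂ} (σ : Equiv.Perm (Fin (r + 1)))
    (σ' : Equiv.Perm (Fin (r' + 1)))
    (h : InX m r (b ∘ σ) m' r' (b' ∘ σ') (s ∘ σ) (s' ∘ σ')) : InX m r b m' r' b' s s' := by
  intro T T' hc hc' N D hZ hD N' D' hZ' hD'
  obtain ⟨-, h1, h2⟩ := M.Pm T m r s b σ
  obtain ⟨N₁, hN₁⟩ := h2 N
  obtain ⟨-, h1', h2'⟩ := M.Pm T' m' r' s' b' σ'
  obtain ⟨N₂, hN₂⟩ := h2' N'
  exact h T T' (h1 hc) (h1' hc') N₁ D (hZ.trans hN₁.symm) hD N₂ D' (hZ'.trans hN₂.symm) hD'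

theorem pairS (M : ModsX) (m r : ℕ) (b : Fin (r + 1) → ℕ) (m' : ℕ) (b' : Fin (r + 1) → ℕ)
    (hr : 3 ≤ r) (hW : HypW m r b) (hW' : HypW m' r b') :
    IsMeagre {s : Fin (r + 1) → ℂ | ¬ InX m r b m' r b' s s} := by
  refine (M.So r (fun σ => {s : Fin (r + 1) → ℂ | Inc s ∧
    ¬ InX m r (b ∘ σ) m' r (b' ∘ σ) s s}) fun σ => pairS_inc M m r (b ∘ σ) m' (b' ∘ σ) hr
      (hypW_perm σ hW) (hypW_perm σ hW')).mono ?_
  rintro s hno σ hσ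
  exact ⟨hσ, fun h => hno (inX_perm M σ σ h)⟩

/-! ## Different sets of branch points -/

theorem pairC_inc (M : ModsX) (n m r : ℕ) (b : Fin (r + 1) → ℕ) (m' : ℕ) (b' : Fin (r + 1) → ℕ)
    (ι ι' : Fin (r + 1) → Fin n) (l : Fin (r + 1)) (hι : Function.Injective ι)
    (hι' : Function.Injective ι') (hl : ι' l ∉ Set.range ι)
    (hr : 3 ≤ r) (hW : HypW m r b) (hW' : HypW m' r b') :
    IsMeagre {s : Fin n → ℂ | (Inc (s ∘ ι) ∧ Inc (s ∘ ι')) ∧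
      ¬ InX m r b m' r b' (s ∘ ι) (s ∘ ι')} := by
  obtain ⟨N₀, hN₀, hC⟩ := M.kC m r b (by omega) (pos_of_hypW hW)
  obtain ⟨N₁, hN₁, hC'⟩ := M.kC m' r b' (by omega) (pos_of_hypW hW')
  obtain ⟨u, hum, huc, hp, hq⟩ := hW'
  obtain ⟨hP, -⟩ := M.xP
  have hmU : IsMeagre (⋃ z : ℕ, {s : Fin n → ℂ | (Admc m b z (s ∘ ι) ∧ NDc m b z (s ∘ ι)) ∧
      (Admc m' b' u (s ∘ ι') ∧ NDc m' b' u (s ∘ ι')) ∧
      ∃ B, AlgB B ∧ ∃ J J', IsJc m b z (s ∘ ι) J ∧ IsJc m' b' u (s ∘ ι') J' ∧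
        B * J = J' * B}) :=
    isMeagre_iUnion fun z => M.xC n m m' r b b' z u ι ι' l hι hι' hl hp hq
  refine (((hP _ n ι N₀ hι hN₀).union (hP _ n ι' N₁ hι' hN₁)).union hmU).mono ?_
  rintro s ⟨⟨hs, hs'⟩, hno⟩
  by_contra hbad
  rw [Set.mem_union, Set.mem_union, not_or, not_or] at hbad
  obtain ⟨⟨hb0, hb1⟩, hb2⟩ := hbad
  refine hno fun T T' hc hc' N D hZ hD N' D' hZ' hD' => Or.inr fun h hh s₀ t₀ => ?_
  by_contra hn
  obtain ⟨v, hv, hJ⟩ := hC _ hs hb0 hc T N D hZ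
  obtain ⟨v', hv', hJ'⟩ := hC' _ hs' hb1 hc' T' N' D' hZ'
  obtain ⟨w, hw⟩ := exists_unit hum huc
  have hpw : D'.p w = sg m' r b' u := by rw [M.Pn T' m' r _ b' hc' N' D' hZ', hw]
  have hpn : D'.p (-w) = sg m' r b' (m' - u) := by
    have : NeZero m' := ⟨by have := hc'.1; omega⟩
    rw [M.Pn T' m' r _ b' hc' N' D' hZ', Hit_aux.neg_val hc'.1 w, hw]
  have hsum : D'.p w + D'.p (-w) = r := (dim_all T' m' r D' hD'.hm hD'.dim w).2
  obtain ⟨s₁, θ, hθ, hθJ⟩ := (M.kT T T' m m' r r D D' hD hD' h hh s₀ t₀ hn).2 w (by omega)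
    (by omega)
  obtain ⟨B, hB, hBJ⟩ := M.kA T T' m m' r D D' hD hD' v v' hv hv' h hh s₁ w θ hθ hθJ
  obtain ⟨J₁, hJ₁, -⟩ := M.kI T m r D hD.hm hD.dim v hv s₁
  obtain ⟨J₂, hJ₂, -⟩ := M.kI T' m' r D' hD'.hm hD'.dim v' hv' w
  have hm3 := hc.1
  have : NeZero m := ⟨by omega⟩
  have hs₁m : (s₁ : ZMod m).val < m := ZMod.val_lt _
  have hs₁c : (s₁ : ZMod m).val.Coprime m := ZMod.val_coe_unit_coprime s₁
  refine hb2 (Set.mem_iUnion.2 ⟨(s₁ : ZMod m).val, ⟨⟨hs, hc, hs₁m, hs₁c⟩, (hJ s₁).1⟩,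
    ⟨⟨hs', hc', hum, huc⟩, ?_⟩, B, hB, J₁, J₂, (hJ s₁).2 J₁ hJ₁, ?_, hBJ _ _ hJ₁ hJ₂⟩)
  · have := (hJ' w).1
    rwa [hw] at this
  · have := (hJ' w).2 J₂ hJ₂
    rwa [hw] at this

theorem pairC (M : ModsX) (n m r : ℕ) (b : Fin (r + 1) → ℕ) (m' : ℕ) (b' : Fin (r + 1) → ℕ)
    (ι ι' : Fin (r + 1) → Fin n) (l : Fin (r + 1)) (hι : Function.Injective ι)
    (hι' : Function.Injective ι') (hl : ι' l ∉ Set.range ι)
    (hr : 3 ≤ r) (hW : HypW m r b) (hW' : HypW m' r b') :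
    IsMeagre {s : Fin n → ℂ | ¬ InX m r b m' r b' (s ∘ ι) (s ∘ ι')} := by
  obtain ⟨-, hP2⟩ := M.xP
  have hmU : IsMeagre (⋃ z : Equiv.Perm (Fin (r + 1)) × Equiv.Perm (Fin (r + 1)),
      {s : Fin n → ℂ | (Inc (s ∘ (ι ∘ z.1)) ∧ Inc (s ∘ (ι' ∘ z.2))) ∧
        ¬ InX m r (b ∘ z.1) m' r (b' ∘ z.2) (s ∘ (ι ∘ z.1)) (s ∘ (ι' ∘ z.2))}) :=
    isMeagre_iUnion fun z => pairC_inc M n m r (b ∘ z.1) m' (b' ∘ z.2) (ι ∘ z.1) (ι' ∘ z.2)
      (z.2.symm l) (hι.comp z.1.injective) (hι'.comp z.2.injective) (by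
        rw [Function.comp_apply, Equiv.apply_symm_apply, Set.range_comp,
          z.1.surjective.range_eq, Set.image_univ]
        exact hl) hr (hypW_perm z.1 hW) (hypW_perm z.2 hW')
  refine (((hP2 r n ι hι).union (hP2 r n ι' hι')).union hmU).mono ?_
  rintro s hno
  by_contra hbad
  rw [Set.mem_union, Set.mem_union, not_or, not_or] at hbad
  obtain ⟨⟨hb0, hb1⟩, hb2⟩ := hbad
  have hb0' : ¬ ∀ σ : Equiv.Perm (Fin (r + 1)), ¬ Inc ((s ∘ ι) ∘ σ) := hb0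
  have hb1' : ¬ ∀ σ : Equiv.Perm (Fin (r + 1)), ¬ Inc ((s ∘ ι') ∘ σ) := hb1
  push Not at hb0' hb1'
  obtain ⟨σ, hσ⟩ := hb0'
  obtain ⟨σ', hσ'⟩ := hb1'
  exact hb2 (Set.mem_iUnion.2 ⟨(σ, σ'), ⟨hσ, hσ'⟩, fun h => hno (inX_perm M σ σ' h)⟩)

/-! ## All pairs -/

/-- The bad set of two types of covers. -/
theorem pairX (M : ModsX) (n m r : ℕ) (b : Fin (r + 1) → ℕ) (m' r' : ℕ)
    (b' : Fin (r' + 1) → ℕ) (ι : Fin (r + 1) → Fin n) (ι' : Fin (r' + 1) → Fin n)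
    (hι : Function.Injective ι) (hι' : Function.Injective ι')
    (hr : 3 ≤ r) (hW : HypW m r b) (hW' : HypW m' r' b') :
    IsMeagre {s : Fin n → ℂ | ¬ InX m r b m' r' b' (s ∘ ι) (s ∘ ι')} := by
  by_cases hrr : r = r'
  swap
  · have : {s : Fin n → ℂ | ¬ InX m r b m' r' b' (s ∘ ι) (s ∘ ι')} = ∅ :=
      Set.eq_empty_of_forall_notMem fun s hs => hs (inX_ne M hrr)
    rw [this]
    exact IsMeagre.empty
  subst hrr
  by_cases hl : ∃ l, ι' l ∉ Set.range ι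
  · obtain ⟨l, hl⟩ := hl
    exact pairC M n m r b m' b' ι ι' l hι hι' hl hr hW hW'
  push Not at hl
  choose τ hτ using hl
  have hτi : Function.Injective τ := fun i j h => hι' (by rw [← hτ i, ← hτ j, h])
  set σ : Equiv.Perm (Fin (r + 1)) := Equiv.ofBijective τ (Finite.injective_iff_bijective.1 hτi)
    with hσ
  have hσι : ι' = ι ∘ σ := by
    funext i
    rw [Function.comp_apply, hσ, Equiv.ofBijective_apply, hτ]
  refine (M.xP.1 (r + 1) n ι _ hι (pairS M m r b m' (b' ∘ σ.symm) hr hW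
    (hypW_perm σ.symm hW'))).mono ?_
  intro s hs h
  refine hs (inX_perm M (Equiv.refl _) σ.symm ?_)
  have e1 : (s ∘ ι') ∘ σ.symm = s ∘ ι := by
    rw [hσι]
    funext i
    simp only [Function.comp_apply, Equiv.apply_symm_apply]
  rw [e1]
  exact h

end SEX
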