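import Pool.Agent.Lib.SE.Y.Spec

/-!
# PROJECT SE-X: one very general point `s ∈ ℂⁿ` (helper64)

All cyclic covers of the line branched at `∞` and some (at least 4) of the coordinates `s_1, …, s_n` of one very
general point, with arbitrary exponents, are pairwise isogenous or independent.

Every module: file `SE/X/xXyz.lean`, `theorem txXyz : S_xXyz`, namespace `SEX` (after it
`open HC HC.E HC.SE SEB SEQ SEG SEY`), import `Pool.Agent.Lib.SE.X.Spec` and the proved modules you want. If the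
docstring says `From S_A` the theorem is `txXyz : S_A → S_xXyz`. Auxiliary lemmas in `namespace SEX.xXyz_aux`.
`xD`, `xS`, `xM`, `xB`, `xF` are the modules `eD`, `eS`, `eM`, `eB`, `eF` of SE/Big (VG4.lean) with TWO types `(m, b, u)`,
`(m', b', v)` in place of `(m, b, u)`, `(m, b, v)`: copy and adapt the files `SE/Big/e*.lean`.
-/

set_option autoImplicit false

open Module MeasureTheory Topology

noncomputable section

namespace SEX

open HC HC.E HC.SE SEB SEQ SEG SEY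

/-! ## Links, the same branch points -/

/-- `θ` intertwines the multiplications by `i`. -/
def LkX (m : ℕ) {r : ℕ} (b : Fin (r + 1) → ℕ) (u m' : ℕ) (b' : Fin (r + 1) → ℕ) (v : ℕ)
    (s : Fin (r + 1) → ℂ) (θ : Module.End ℂ (Fin r → ℂ)) : Prop :=
  ∀ J J', IsJc m b u s J → IsJc m' b' v s J' → θ * J = J' * θ

/-- `s` is admissible and nondegenerate for both types. -/
def AdX (m : ℕ) {r : ℕ} (b : Fin (r + 1) → ℕ) (u m' : ℕ) (b' : Fin (r + 1) → ℕ) (v : ℕ)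
    (s : Fin (r + 1) → ℂ) : Prop :=
  Admc m b u s ∧ NDc m b u s ∧ Admc m' b' v s ∧ NDc m' b' v s

/-- There is an injective `θ` with algebraic entries. -/
def LkB (m : ℕ) {r : ℕ} (b : Fin (r + 1) → ℕ) (u m' : ℕ) (b' : Fin (r + 1) → ℕ) (v : ℕ)
    (s : Fin (r + 1) → ℂ) : Prop :=
  ∃ θ : Module.End ℂ (Fin r → ℂ), AlgB θ ∧ LkX m b u m' b' v s θ

/-- DERIVATIVE OF A LINK. From `S_cPv`, `S_cKap`, `S_cD`, `S_cJx`, `S_Sg`. As `S_eD` (VG4.lean, SE/Big/eD.lean). -/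
def S_xD : Prop :=
  ∀ (m m' r : ℕ) (b b' : Fin (r + 1) → ℕ) (u v : ℕ) (U : Set (Fin (r + 1) → ℂ)), IsOpen U →
    (∀ s ∈ U, AdX m b u m' b' v s) → ∀ θ : Module.End ℂ (Fin r → ℂ),
    (∀ s ∈ U, LkX m b u m' b' v s θ) →
    ∀ s ∈ U, ∀ f g : Polynomial ℂ, f.degree < (sg m r b u : WithBot ℕ) →
    g.degree < (sg m' r b' v : WithBot ℕ) → θ (Pc m b u s f) = Pc m' b' v s g →
    ∀ a : Polynomial ℂ, ∃ g' : Polynomial ℂ, g'.degree < (sg m' r b' v : WithBot ℕ) ∧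
      θ (Pc m b u s (Thc (mu m b u) s a f)) =
        Pc m' b' v s g' + Pc m' b' v s (Thc (mu m' b' v) s a g)

/-- A LINK IS A SCALAR. From `S_eT`, `S_xD`, `S_cPv`, `S_cKap`, `S_cE`, `S_cJx`, `S_Sg`. As `S_eS` (VG4.lean,
SE/Big/eS.lean). -/
def S_xS : Prop :=
  ∀ (m m' r : ℕ) (b b' : Fin (r + 1) → ℕ) (u v : ℕ) (U : Set (Fin (r + 1) → ℂ)), IsOpen U →
    (∀ s ∈ U, AdX m b u m' b' v s) → ∀ θ : Module.End ℂ (Fin r → ℂ), Function.Injective θ →
    (∀ s ∈ U, LkX m b u m' b' v s θ) → 1 ≤ sg m r b u → sg m' r b' v = sg m r b u →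
    1 ≤ sg m r b (m - u) → ∀ s ∈ U, Nj (mu m' b' v) s →
    ∃ c : ℂ, c ≠ 0 ∧ ∀ f : Polynomial ℂ, f.degree < (sg m r b u : WithBot ℕ) →
      θ (Pc m b u s f) = c • Pc m' b' v s f

/-- THE EXPONENTS ARE EQUAL. From `S_xS`, `S_cPv`, `S_cKap`, `S_cD`, `S_cE`. As `S_eM` (VG4.lean,
SE/Big/eM.lean). -/
def S_xM : Prop :=
  ∀ (m m' r : ℕ) (b b' : Fin (r + 1) → ℕ) (u v : ℕ) (U : Set (Fin (r + 1) → ℂ)), IsOpen U →
    U.Nonempty → (∀ s ∈ U, AdX m b u m' b' v s) → (∀ s ∈ U, Nj (mu m' b' v) s) →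
    ∀ θ : Module.End ℂ (Fin r → ℂ), Function.Injective θ →
    (∀ s ∈ U, LkX m b u m' b' v s θ) →
    2 ≤ sg m r b u → sg m' r b' v = sg m r b u → 1 ≤ sg m r b (m - u) →
    ∀ j, mu m b u j = mu m' b' v j

/-- BAIRE. From `S_cI`, `S_cKap`, `S_cPv`, `S_cC`, `S_cJx`, `S_cN`, `S_Sg`, `S_xM`, `S_eO`. As `S_eB` (VG4.lean,
SE/Big/eB.lean; `S_xM` contradicts the hypothesis). -/
def S_xB : Prop :=
  ∀ (m m' r : ℕ) (b b' : Fin (r + 1) → ℕ) (u v : ℕ), (∃ j, mu m b u j ≠ mu m' b' v j) →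
    2 ≤ sg m r b u → sg m' r b' v = sg m r b u → 1 ≤ sg m r b (m - u) →
    IsMeagre {s : Fin (r + 1) → ℂ | AdX m b u m' b' v s ∧ LkB m b u m' b' v s}

/-- BAIRE, all signatures. From `S_xB`, `S_cKap`, `S_cJx`, `S_Sg`. As `S_eF` (VG4.lean, SE/Big/eF.lean). If the set is not empty then
`sg m' v = sg m u` (`θ` is bijective and maps the eigenspaces of `J` to those of `J'`). `mu m b (m - u) j = 1 - mu m b u j`
(`S_cKap`: `nn m b (m - u) j = m - nn m b u j`). -/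
def S_xF : Prop :=
  ∀ (m m' r : ℕ) (b b' : Fin (r + 1) → ℕ) (u v : ℕ), 3 ≤ r →
    (∃ j, mu m b u j ≠ mu m' b' v j) → 0 < sg m r b u → 0 < sg m r b (m - u) →
    IsMeagre {s : Fin (r + 1) → ℂ | AdX m b u m' b' v s ∧ LkB m b u m' b' v s}

/-- ARITHMETIC. PROOF. `mu m b u j = 1 - (u b_j mod m)/m`. Put `n_j = u b_j mod m`, `n'_j = v b'_j mod m'`, so
`n_j m' = n'_j m` for all `j`. The `n_j` and `m` have no common divisor (`d ∣ m`, `d ∣ n_j` gives `d ∣ u b_j`, `d ∣ b_j`;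
`IsCov`). `m ∣ n_j m'` for all `j`, so `m ∣ m'` (`m / gcd(m, m')` divides `m` and all `n_j`); by symmetry `m = m'`, `n_j = n'_j`.
The second statement: `w u b_j = w v b'_j` modulo `m`, and `sg m r b x` depends only on the numbers `x b_j mod m`. -/
def S_xU : Prop :=
  ∀ (m m' r : ℕ) (b b' : Fin (r + 1) → ℕ) (u v : ℕ) (s s' : Fin (r + 1) → ℂ), IsCov m s b →
    IsCov m' s' b' → u.Coprime m → v.Coprime m' → (∀ j, mu m b u j = mu m' b' v j) →
    m = m' ∧ (∀ j, u * b j ≡ v * b' j [MOD m]) ∧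
      ∀ w x y : ℕ, x ≡ w * u [MOD m] → y ≡ w * v [MOD m] → sg m r b x = sg m r b' y

/-! ## Different sets of branch points -/

/-- `J` IS NOT CONSTANT IN THE DIRECTION OF `s_l`. From `S_cN`, `S_cKap`, `S_cPv`, `S_cE`, `S_cJx`, `S_cD`, `S_Sg`. PROOF. Some
`s ∈ U` has `Nj (mu m b u) s` (`S_cN`, Baire, as in SE/Y/kN.lean, SE/Big/cBa2.lean). Suppose the statement is false at `s`. `a = ac s l`
(`cRk1_aux.ac`, SE/Big/cRk1.lean): `a(s_l) = 1`, `a(s_j) = 0` for `j ≠ l`, so `s_ε = s + ε a(s)`. For small real `ε`: `s_ε ∈ U`, `J` is the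
operator of `s_ε`, so `J (Pc 1) = i Pc 1` at `s_ε` (`0 < sg u`). Differentiate (`cDj_aux.Pc_deriv` in SE/Big/cDj.lean, as in
SE/Big/eM.lean): `J Pc(Thc a 1) = i Pc(Thc a 1)` at `s`. `S_cJx`: `Pc(Thc a 1) = Pc g`, `deg g < sg u ≤ r - 1` (`S_Sg`). This contradicts
`eS_aux.Dt.nsp` (SE/Big/eS.lean; `c = 1`). -/
def S_xN : Prop :=
  ∀ (m r : ℕ) (b : Fin (r + 1) → ℕ) (u : ℕ) (U : Set (Fin (r + 1) → ℂ)) (l : Fin (r + 1)),
    0 < sg m r b u → 0 < sg m r b (m - u) → IsOpen U → U.Nonempty →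
    (∀ s ∈ U, Admc m b u s ∧ NDc m b u s) →
    ∃ s ∈ U, ¬ ∀ J, IsJc m b u s J → ∀ᶠ ε in 𝓝 (0 : ℝ),
      IsJc m b u (fun j => if j = l then s j + (ε : ℂ) else s j) J

/-- BAIRE, different sets of branch points. From `S_xN`, `S_cKap`, `S_cPv`, `S_cC`, `S_cI`, `S_cJx`, `S_cCj`, `S_Sg`. PROOF. There are
countably many `B` (SE/Big/eB.lean: `cBa2_aux.Al`). For each of them the set is relatively closed in the open set of all `s` with
`Admc`, `NDc` for `s ∘ ι` and for `s ∘ ι'` (`J`, `J'` are unique and continuous functions of `s ∘ ι`, `s ∘ ι'`: `eB_aux.JM_cont`,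
`cCj_aux.JM_isJ`). If it contains a nonempty open set `W`: the image of `W` under `s ↦ s ∘ ι'` is open (a surjective linear map). `S_xN` for
this image and `l`: `s ∈ W` such that `J'` is not constant near `s ∘ ι'` in the direction of `l`. But for
`s_ε = s + ε e_(ι' l) ∈ W`: `s_ε ∘ ι = s ∘ ι` (`ι' l` is not in the range of `ι`), so `J' = B J B⁻¹` is the same operator
(`s_ε ∘ ι' = s ∘ ι' + ε e_l`, `ι'` is injective). -/
def S_xC : Prop :=
  ∀ (n m m' r : ℕ) (b b' : Fin (r + 1) → ℕ) (u v : ℕ) (ι ι' : Fin (r + 1) → Fin n)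
    (l : Fin (r + 1)), Function.Injective ι → Function.Injective ι' → ι' l ∉ Set.range ι →
    0 < sg m' r b' v → 0 < sg m' r b' (m' - v) →
    IsMeagre {s : Fin n → ℂ | (Admc m b u (s ∘ ι) ∧ NDc m b u (s ∘ ι)) ∧
      (Admc m' b' v (s ∘ ι') ∧ NDc m' b' v (s ∘ ι')) ∧
      ∃ B, AlgB B ∧ ∃ J J', IsJc m b u (s ∘ ι) J ∧ IsJc m' b' v (s ∘ ι') J' ∧ B * J = J' * B}

/-! ## Topology -/

/-- PREIMAGES, SORTING. PROOF. `s ↦ s ∘ ι` is a surjective continuous linear map (`LinearMap.funLeft`), so it is open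
(`ContinuousLinearMap.isOpenMap`): `IsMeagre.preimage_of_isOpenMap`. The second statement: `S_cSo` (SE/Big/cSo.lean) with
`A σ = ∅`, and the first statement. -/
def S_xP : Prop :=
  (∀ (k n : ℕ) (ι : Fin k → Fin n) (A : Set (Fin k → ℂ)), Function.Injective ι → IsMeagre A →
    IsMeagre {s : Fin n → ℂ | s ∘ ι ∈ A}) ∧
  ∀ (r n : ℕ) (ι : Fin (r + 1) → Fin n), Function.Injective ι →
    IsMeagre {s : Fin n → ℂ | ∀ σ : Equiv.Perm (Fin (r + 1)), ¬ Inc ((s ∘ ι) ∘ σ)}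

end SEX
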